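import Pool.Agent.K1H44.LC.Plan

/-! `S_DUAL` of the project LC: `(p - 1) A(p,q) + (q - 1) A(q,p) = p + q - 1`. -/

set_option autoImplicit false

namespace Pool.Agent.K1H24.LC

open Pool.Agent.K1H44.LC

/-- the terms of the double series -/
noncomputable def tm (p q : ℕ) (z : ℕ × ℕ) : ℝ := (1 / (p : ℝ)) ^ z.1 * (1 / (q : ℝ)) ^ z.2

theorem inv_lt {p : ℕ} (hp : 2 ≤ p) : 0 < 1 / (p : ℝ) ∧ 1 / (p : ℝ) < 1 := by
  have h : (2 : ℝ) ≤ p := by exact_mod_cast hp
  constructor
  · positivity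
  · rw [div_lt_one (by linarith)]
    linarith

theorem summable_geo {p : ℕ} (hp : 2 ≤ p) : Summable fun u : ℕ => (1 / (p : ℝ)) ^ u :=
  summable_geometric_of_lt_one (inv_lt hp).1.le (inv_lt hp).2

theorem summable_tm {p q : ℕ} (hp : 2 ≤ p) (hq : 2 ≤ q) : Summable (tm p q) :=
  (summable_geo hp).mul_of_nonneg (summable_geo hq) (fun _ => pow_nonneg (inv_lt hp).1.le _)
    fun _ => pow_nonneg (inv_lt hq).1.le _

theorem tm_nonneg (p q : ℕ) (z : ℕ × ℕ) : 0 ≤ tm p q z := by
  unfold tm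
  positivity

theorem tsum_tm {p q : ℕ} (hp : 2 ≤ p) (hq : 2 ≤ q) :
    ∑' z, tm p q z = 1 / (1 - 1 / (p : ℝ)) * (1 / (1 - 1 / (q : ℝ))) := by
  have h := (summable_geo hp).tsum_mul_tsum (summable_geo hq) (summable_tm hp hq)
  rw [tsum_geometric_of_lt_one (inv_lt hp).1.le (inv_lt hp).2,
    tsum_geometric_of_lt_one (inv_lt hq).1.le (inv_lt hq).2] at h
  rw [one_div (1 - 1 / (p : ℝ)), one_div (1 - 1 / (q : ℝ)), h]
  rfl

theorem inner {y : ℝ} (hy : y ≠ 1) (n : ℕ) (c : ℝ) :
    ∑' v : ℕ, (if v ≤ n then c * y ^ v else 0) = c * ((1 - y ^ (n + 1)) / (1 - y)) := by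
  rw [tsum_eq_sum (s := Finset.range (n + 1))]
  · have h1 : ∑ v ∈ Finset.range (n + 1), (if v ≤ n then c * y ^ v else 0) =
        ∑ v ∈ Finset.range (n + 1), c * y ^ v := by
      refine Finset.sum_congr rfl fun v hv => ?_
      rw [Finset.mem_range] at hv
      rw [if_pos (by omega)]
    rw [h1, ← Finset.mul_sum, geom_sum_eq hy]
    congr 1
    rw [← neg_sub 1 (y ^ (n + 1)), ← neg_sub 1 y, neg_div_neg_eq]
  · intro v hv
    rw [Finset.mem_range, not_lt] at hv
    rw [if_neg (by omega)]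

/-- the part of the double series over `q ^ v ≤ p ^ u` -/
noncomputable def part (p q : ℕ) (z : ℕ × ℕ) : ℝ := if z.2 ≤ L p q z.1 then tm p q z else 0

theorem summable_part {p q : ℕ} (hp : 2 ≤ p) (hq : 2 ≤ q) : Summable (part p q) := by
  refine Summable.of_nonneg_of_le (fun z => ?_) (fun z => ?_) (summable_tm hp hq)
  · unfold part
    split_ifs
    · exact tm_nonneg _ _ _
    · exact le_rfl
  · unfold part
    split_ifs
    · exact le_rfl
    · exact tm_nonneg _ _ _

theorem summable_A {p q : ℕ} (hp : 2 ≤ p) (hq : 2 ≤ q) :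
    Summable fun u : ℕ => 1 / ((p : ℝ) ^ u * (q : ℝ) ^ L p q u) := by
  refine Summable.of_nonneg_of_le (fun u => by positivity) (fun u => ?_) (summable_geo hp)
  have h1 : (1 : ℝ) ≤ q := by exact_mod_cast (by omega : 1 ≤ q)
  have h2 : (0 : ℝ) < p := by exact_mod_cast (by omega : 0 < p)
  rw [one_div_pow]
  refine one_div_le_one_div_of_le (by positivity) ?_
  exact le_mul_of_one_le_right (by positivity) (one_le_pow₀ h1)

theorem tsum_part {p q : ℕ} (hp : 2 ≤ p) (hq : 2 ≤ q) : ∑' z, part p q z =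
    (1 / (1 - 1 / (p : ℝ)) - 1 / (q : ℝ) * A p q) / (1 - 1 / (q : ℝ)) := by
  rw [(summable_part hp hq).tsum_prod]
  have h1 : ∀ u : ℕ, ∑' v : ℕ, part p q (u, v) = ((1 / (p : ℝ)) ^ u -
      1 / (q : ℝ) * (1 / ((p : ℝ) ^ u * (q : ℝ) ^ L p q u))) / (1 - 1 / (q : ℝ)) := by
    intro u
    have h2 := inner (inv_lt hq).2.ne (L p q u) ((1 / (p : ℝ)) ^ u)
    have h3 : ∑' v : ℕ, part p q (u, v) =
        ∑' v : ℕ, (if v ≤ L p q u then (1 / (p : ℝ)) ^ u * (1 / (q : ℝ)) ^ v else 0) := rfl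
    rw [h3, h2, pow_succ (1 / (q : ℝ)), one_div_pow, one_div_pow, ← mul_div_assoc, mul_sub, mul_one,
      one_div_mul_one_div_rev]
    congr 2
    rw [one_div_mul_one_div_rev, one_div_mul_one_div_rev]
    congr 1
    ring
  simp_rw [h1]
  rw [tsum_div_const, (summable_geo hp).tsum_sub ((summable_A hp hq).mul_left _), tsum_mul_left,
    tsum_geometric_of_lt_one (inv_lt hp).1.le (inv_lt hp).2, ← one_div]
  rfl

theorem t_DUAL : S_DUAL := by
  intro p q hpq
  obtain ⟨hp', hq', hne⟩ := hpq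
  have hp := hp'.two_le
  have hq := hq'.two_le
  have h1 : ∀ z : ℕ × ℕ, part p q z + part q p z.swap =
      tm p q z + (if z = (0, 0) then 1 else 0) := by
    rintro ⟨u, v⟩
    have e1 : v ≤ L p q u ↔ q ^ v ≤ p ^ u :=
      Nat.le_log_iff_pow_le (by omega) (pow_ne_zero _ (by omega))
    have e2 : u ≤ L q p v ↔ p ^ u ≤ q ^ v :=
      Nat.le_log_iff_pow_le (by omega) (pow_ne_zero _ (by omega))
    have e3 : tm q p (v, u) = tm p q (u, v) := by
      unfold tm
      exact mul_comm _ _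
    simp only [part, Prod.swap_prod_mk, e1, e2, e3]
    rcases lt_trichotomy (p ^ u) (q ^ v) with h | h | h
    · rw [if_neg (by omega), if_pos h.le, if_neg, zero_add, add_zero]
      rintro h'
      rw [Prod.mk.injEq] at h'
      rw [h'.1, h'.2] at h
      simp at h
    · have hu : u = 0 := by
        by_contra hu
        have h3 : p ∣ q ^ v := by
          rw [← h]
          exact dvd_pow_self _ hu
        exact hne ((Nat.prime_dvd_prime_iff_eq hp' hq').1 (hp'.dvd_of_dvd_pow h3))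
      subst hu
      have hv : v = 0 := by
        by_contra hv
        have h3 : q ∣ p ^ 0 := by
          rw [h]
          exact dvd_pow_self _ hv
        rw [pow_zero] at h3
        exact absurd (Nat.le_of_dvd one_pos h3) (by omega)
      subst hv
      simp [tm]
    · rw [if_pos h.le, if_neg (by omega), if_neg]
      rintro h'
      rw [Prod.mk.injEq] at h'
      rw [h'.1, h'.2] at h
      simp at h
  have s2 : Summable fun z : ℕ × ℕ => part q p z.swap :=
    (Equiv.prodComm ℕ ℕ).summable_iff.2 (summable_part hq hp)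
  have t2 : ∑' z : ℕ × ℕ, part q p z.swap = ∑' z, part q p z :=
    (Equiv.prodComm ℕ ℕ).tsum_eq (part q p)
  have h2 : ∑' z : ℕ × ℕ, (part p q z + part q p z.swap) = ∑' z, part p q z + ∑' z, part q p z := by
    rw [(summable_part hp hq).tsum_add s2, t2]
  have s3 : Summable fun z : ℕ × ℕ => if z = (0, 0) then (1 : ℝ) else 0 :=
    summable_of_ne_finset_zero (s := {(0, 0)}) fun z hz => by
      rw [if_neg (by simpa using hz)]
  have h3 : ∑' z : ℕ × ℕ, (part p q z + part q p z.swap) =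
      1 / (1 - 1 / (p : ℝ)) * (1 / (1 - 1 / (q : ℝ))) + 1 := by
    simp_rw [h1]
    rw [(summable_tm hp hq).tsum_add s3, tsum_tm hp hq, tsum_ite_eq]
  rw [h2, tsum_part hp hq, tsum_part hq hp] at h3
  have hp2 : (2 : ℝ) ≤ p := by exact_mod_cast hp
  have hq2 : (2 : ℝ) ≤ q := by exact_mod_cast hq
  have n1 : (p : ℝ) ≠ 0 := by linarith
  have n2 : (q : ℝ) ≠ 0 := by linarith
  have n3 : (p : ℝ) - 1 ≠ 0 := by linarith
  have n4 : (q : ℝ) - 1 ≠ 0 := by linarith
  have k1 : 1 - 1 / (p : ℝ) = (p - 1) / p := by field_simp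
  have k2 : 1 - 1 / (q : ℝ) = (q - 1) / q := by field_simp
  rw [k1, k2] at h3
  field_simp at h3
  linarith

end Pool.Agent.K1H24.LC
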